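import Pool.Agent.H614.BF.Fuj

/-!
# Freeness of adjoint line bundles on images of small degree

Let `V` be a projective variety of dimension `n` in projective space, possibly singular, and `f : V ⇢ W`
a dominant rational map of degree `r` onto a projective variety `W`. Let `𝓛` be a line bundle on `W` such
that `f^* 𝓛 = 𝒪_V(ℓ) + E`, where `E` is effective.

The theorem: if `ℓ ≥ n + r`, then `K_W + 𝓛` is generated by its global sections at all smooth points `p` of
`W` such that `f` is defined and `E` is trivial at all points of `V` over `p`.

For Fujita's conjecture let `A` be an ample line bundle on the smooth projective variety `W` of dimension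
`n`, and suppose that `W` has a finite covering `f : V → W` of degree `r`, with any projective variety
`V ⊂ ℙ^N`, such that `f^* A = 𝒪_V(k)`. Then `K_W + j A` is globally generated if `j k ≥ n + r`. In
particular `K_W + (n + 1) A` is globally generated if `r ≤ (n + 1) (k - 1) + 1`; for `k = 2` these are
the coverings of degree at most `n + 2`. The case `r = 1`, where `A` is `k` times a very ample line
bundle, is classical. With `E` the theorem applies to line bundles `A` such that `f^* A - k H` is
effective, at all points `p` such that the fixed part does not meet the fibre over `p`; here `f` can be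
generically finite, or only a rational map.

If `V` is smooth and `f` is finite, then this can be proved with Kodaira vanishing on `V`. Here nothing
is assumed about the singularities of `V` (which need not be normal), and `f` need not be flat or a
morphism. The proof is algebraic. The canonical forms
`∑ ± x_(i_0) dx_(i_1) ∧ ... ∧ dx_(i_n)` are sections of `K_V + (n + 1) H`, regular on every resolution
of `V`, and generate the pull-backs of all differential forms `dt_1 ∧ ... ∧ dt_n` with `t_i` in the local
ring of `p`. The traces to `W` of their products with the forms of degree `m = ℓ - n - 1` on `V` are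
sections of `K_W + 𝓛`. Let `O` be a valuation ring of `ℂ(W)` which dominates the local ring of `p`.
There is a linear form `λ` such that the `ξ_j = x_j / λ` are integral over `O`, and the algebra `O[ξ]`
is generated as an `O`-module by the monomials of degree `m` in `ξ`, since `r ≤ m + 1`. So the pull-back
of a generator `η` of `K_W + 𝓛` at `p` is an `O`-linear combination of products as above. Its trace is
`r η`; so the trace of one of the products does not vanish at `p`.

The function-field language of the starting repository is used: `K` and `L` are the function fields of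
`V` and `W`. A canonical form (`IsPluri 1`) on a variety of dimension `n` is a function of `n` rational
vector fields. Prime divisors over a variety are given by the places `P` (`Place`, `Divisorial`) of its
function field, `P.ord` is the order along `P`, and `DerReg P` says that a vector field is regular at
`P`. `Over Q P e` says that `Q` lies over `P` with ramification index `e`. A line bundle `𝓛` on `W`,
realised as a subsheaf of the constant sheaf `L`, is given by the numbers `a P`, where `- a P` is the
order at `P` of a generator of `𝓛` at the centre of `P`; that is, by the Cartier divisor `D` with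
`𝓛 = 𝒪_W(D)` and its pull-backs to the other models.
-/

set_option autoImplicit false
set_option linter.overlappingInstances false

open FF Pool.Agent.W602.GT

namespace Pool.Agent.Results.MP_9ff3e7_ag.BasePointsOfImages

section

variable {K : Type} [Field K] [Algebra ℂ K] {n N : ℕ}

/-- `q` is a point, with homogeneous coordinates in an extension `κ` of `ℂ`, of the projective variety
with generic point `x`: all homogeneous equations of `x` hold for `q`. -/
def IsPoint {ι : Type} (x : ι → K) {κ : Type} [Field κ] [Algebra ℂ κ] (q : ι → κ) : Prop :=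
  q ≠ 0 ∧ ∀ (e : ℕ) (F : MvPolynomial ι ℂ), F.IsHomogeneous e →
    MvPolynomial.aeval x F = 0 → MvPolynomial.aeval q F = 0

/-- The point `q` lies on the closure of the centre of `P` on the projective variety with generic point
`x`: a form `B` which does not vanish at `q` does not vanish at this centre, that is, its order at `P`
is `deg B` times the minimum of the orders of the coordinates. -/
def Through (P : Place ℂ K) (x : Fin N → K) {κ : Type} [Field κ] [Algebra ℂ κ]
    (q : Fin N → κ) : Prop :=
  ∀ (e : ℕ) (B : MvPolynomial (Fin N) ℂ), B.IsHomogeneous e → MvPolynomial.aeval q B ≠ 0 →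
    ∀ i, x i ≠ 0 → P.ord (MvPolynomial.aeval x B) ≤ e * P.ord (x i)

/-- The functions `t j` are in the local ring of the point `p` of the projective variety with generic
point `y`: they are quotients `(G j)(y) / H(y)` of forms of the same degree, `H(p) ≠ 0`. -/
def RegularFunctions (y : Fin N → K) {κ : Type} [Field κ] [Algebra ℂ κ] (p : Fin N → κ)
    (t : Fin n → K) : Prop :=
  ∃ (e : ℕ) (H : MvPolynomial (Fin N) ℂ) (G : Fin n → MvPolynomial (Fin N) ℂ),
    H.IsHomogeneous e ∧ (∀ j, (G j).IsHomogeneous e) ∧ MvPolynomial.aeval p H ≠ 0 ∧
    ∀ j, MvPolynomial.aeval y H * t j = MvPolynomial.aeval y (G j)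

/-- The canonical form `θ` is at the prime divisor `P` a section of `K_W + 𝓛`: its values on vector
fields which are regular at `P` are sections of `𝓛` at `P`. -/
def SectionAt (a : Place ℂ K → ℤ) (P : Place ℂ K) (θ : (Fin n → Derivation ℂ K K) → K) : Prop :=
  ∀ D : Fin n → Derivation ℂ K K, (∀ i, DerReg P (D i)) → θ D = 0 ∨ - a P ≤ P.ord (θ D)

/-- `η` generates `K_W + 𝓛` at the point `p` of `W`, the projective variety with generic point `y`: the
sections of `K_W + 𝓛` near `p`, that is, the canonical forms `θ` which are sections at all prime
divisors over `W` through `p`, are equal to `(A(y) / B(y)) η` with forms `A` and `B` of the same degree,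
`B(p) ≠ 0`. -/
def Generates (a : Place ℂ K → ℤ) (y : Fin N → K) {κ : Type} [Field κ] [Algebra ℂ κ]
    (p : Fin N → κ) (η : (Fin n → Derivation ℂ K K) → K) : Prop :=
  ∀ θ : (Fin n → Derivation ℂ K K) → K, IsPluri 1 θ →
    (∀ P : Place ℂ K, Divisorial n P → Through P y p → SectionAt a P θ) →
    ∃ (e : ℕ) (A B : MvPolynomial (Fin N) ℂ), A.IsHomogeneous e ∧ B.IsHomogeneous e ∧
      MvPolynomial.aeval p B ≠ 0 ∧
      ∀ D, MvPolynomial.aeval y B * θ D = MvPolynomial.aeval y A * η D

/-- `p` is a point of `W`, for instance a smooth point, at which `K_W + 𝓛` is generated by a nonzero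
form `g dt_1 ∧ ... ∧ dt_n`, where the functions `t j` are in the local ring of `p`. -/
def AdjointGenerator (a : Place ℂ K → ℤ) (y : Fin N → K) {κ : Type} [Field κ] [Algebra ℂ κ]
    (p : Fin N → κ) (g : K) (t : Fin n → K) : Prop :=
  RegularFunctions y p t ∧
  (∃ D : Fin n → Derivation ℂ K K, g * (Matrix.of fun i j => D i (t j)).det ≠ 0) ∧
  Generates a y p
    (fun D : Fin n → Derivation ℂ K K => g * (Matrix.of fun i j => D i (t j)).det)

end

section

variable {K L : Type} [Field K] [Algebra ℂ K] [Field L] [Algebra ℂ L] [Algebra L K] {N M : ℕ}

/-- The rational map `V ⇢ W`, given by the generic points `x` and `y`, is defined at the point `q` of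
`V`: it is given by forms `F j` of the same degree which do not all vanish at `q`. -/
def Defined (x : Fin N → K) (y : Fin M → L) {κ : Type} [Field κ] [Algebra ℂ κ]
    (q : Fin N → κ) : Prop :=
  ∃ (e : ℕ) (F : Fin M → MvPolynomial (Fin N) ℂ), (∀ j, (F j).IsHomogeneous e) ∧
    (∀ j k, algebraMap L K (y j) * MvPolynomial.aeval x (F k) =
      algebraMap L K (y k) * MvPolynomial.aeval x (F j)) ∧
    ∃ j, MvPolynomial.aeval q (F j) ≠ 0

/-- `(q, p)` is a point of the closure of the graph of `V ⇢ W`, in the Segre embedding. -/
def InGraph (x : Fin N → K) (y : Fin M → L) {κ : Type} [Field κ] [Algebra ℂ κ]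
    (q : Fin N → κ) (p : Fin M → ℂ) : Prop :=
  IsPoint (fun ij : Fin N × Fin M => x ij.1 * algebraMap L K (y ij.2))
    (fun ij : Fin N × Fin M => q ij.1 * algebraMap ℂ κ (p ij.2))

/-- `s ↦ φ⁻¹ s` maps `𝒪_V(ℓ)` to `f^* 𝓛`, so that `f^* 𝓛 = 𝒪_V(ℓ) + E` with `E` effective. At a prime
divisor `Q` over `V` the sections of `𝒪_V(ℓ)` are the functions of order at least `ℓ` times the minimum
of the orders of the coordinates, and those of `f^* 𝓛` are the functions of order at least `- e a(P)`,
where `P` is the place below `Q` and `e` the ramification index. -/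
def PullBack (n ℓ : ℕ) (x : Fin N → K) (a : Place ℂ L → ℤ) (φ : K) : Prop :=
  φ ≠ 0 ∧ ∀ (Q : Place ℂ K) (P : Place ℂ L) (e : ℕ), Over Q P e → Divisorial n Q →
    ∀ i, x i ≠ 0 → Q.ord φ ≤ e * a P + ℓ * Q.ord (x i)

/-- `u` is a section of `𝒪_V(ℓ)` at the point `q` of `V`. -/
def SectionOfO (ℓ : ℕ) (x : Fin N → K) {κ : Type} [Field κ] [Algebra ℂ κ] (q : Fin N → κ) (u : K) :
    Prop :=
  ∃ (e : ℕ) (A B : MvPolynomial (Fin N) ℂ), A.IsHomogeneous (e + ℓ) ∧ B.IsHomogeneous e ∧
    MvPolynomial.aeval q B ≠ 0 ∧ MvPolynomial.aeval x B * u = MvPolynomial.aeval x A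

end

/-- **Freeness of adjoint line bundles on images of small degree.** Let `V` and `W` be projective
varieties of dimension `n` with generic points `x` and `y` and function fields `K` and `L`,
`f : V ⇢ W` a dominant rational map of degree `[K : L]`, and `𝓛` a line bundle on `W` with
`f^* 𝓛 = 𝒪_V(ℓ) + E`, `E` effective, where `ℓ ≥ n + [K : L]`. Let `p` be a point of `W` at which
`K_W + 𝓛` is generated by `g dt_1 ∧ ... ∧ dt_n` with `t j` in the local ring of `p`, and suppose that at
all points `q` of `V` over `p` the map `f` is defined and `E` is trivial (`φ g` is a section of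
`𝒪_V(ℓ)`). Then some global section `θ` of `K_W + 𝓛` does not vanish at `p`. -/
theorem result {n ℓ N M : ℕ} {K : Type} [Field K] [Algebra ℂ K] [Algebra.EssFiniteType ℂ K]
    (hK : Algebra.trdeg ℂ K = n) {x : Fin N → K} (hx : x ≠ 0)
    (L : Type) [Field L] [Algebra ℂ L] [Algebra L K] [IsScalarTower ℂ L K]
    [FiniteDimensional L K] {y : Fin M → L} (degree : n + Module.finrank L K ≤ ℓ)
    (a : Place ℂ L → ℤ) {φ : K} (pullback : PullBack n ℓ x a φ)
    {p : Fin M → ℂ} (hp : IsPoint y p) {g : L} {t : Fin n → L}
    (generator : AdjointGenerator a y p g t)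
    (fibre : ∀ (κ : Type) [Field κ] [Algebra ℂ κ] (q : Fin N → κ), InGraph x y q p →
      Defined x y q ∧ SectionOfO ℓ x q (φ * algebraMap L K g)) :
    ∃ θ : (Fin n → Derivation ℂ L L) → L, IsPluri 1 θ ∧
      (∀ P : Place ℂ L, Divisorial n P → SectionAt a P θ) ∧ Generates a y p θ := by
  have h1 : 0 < Module.finrank L K := Module.finrank_pos
  obtain ⟨m, rfl⟩ : ∃ m, ℓ = m + (n + 1) := ⟨ℓ - (n + 1), by omega⟩
  exact Pool.Agent.H614.BF.fuj (m := m) hK hx (by omega) hp a pullback.1 pullback.2
    generator.1 generator.2.1 generator.2.2 fibre

end Pool.Agent.Results.MP_9ff3e7_ag.BasePointsOfImages
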